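import Mathlib
import Pool.Agent.Shared.NP.Defs
import Pool.Agent.Lib.MP_698553_lc.Red

namespace Pool.Agent.Results.MP_698553_lc.NPHard

open Pool.Agent.Lib.MP_698553_lc

/-- Recognition of probe perfect graphs (no partition given) is NP-hard: every language in NP
has a polynomial-time many-one reduction to it. -/
theorem result :
    Pool.Agent.Shared.NP.NPHard GraphInst.code fun x : GraphInst => IsProbePerfect x.graph :=
  npHard

end Pool.Agent.Results.MP_698553_lc.NPHard
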