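import Mathlib
import Pool.Agent.Shared.NP.Defs
import Pool.Agent.Lib.MP_698553_lc.Coll

namespace Pool.Agent.Results.MP_698553_lc.PeqNP

open Pool.Agent.Lib.MP_698553_lc

/-- Probe perfect graphs (no partition given) are recognised in deterministic polynomial time
if and only if every language in NP is decided in deterministic polynomial time. -/
theorem result :
    InP GraphInst.code (fun x : GraphInst => IsProbePerfect x.graph) ↔
      ∀ L : List Bool → Prop, Pool.Agent.Shared.NP.InNP id L → InP id L :=
  inP_iff

end Pool.Agent.Results.MP_698553_lc.PeqNP
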